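import Pool.Agent.W406.PX.Stmts

set_option autoImplicit false

open Finset

namespace Pool.Agent.W880.PX.Good

open Pool.Agent.W406.PX

theorem bern (j : ℕ) (n : ℕ) : j ^ (n + 1) + (n + 1) * j ^ n ≤ (j + 1) ^ (n + 1) := by
  induction n with
  | zero => simp
  | succ n ih =>
    calc j ^ (n + 1 + 1) + (n + 1 + 1) * j ^ (n + 1)
        ≤ (j + 1) * (j ^ (n + 1) + (n + 1) * j ^ n) := by
          have : 0 ≤ (n + 1) * j ^ n := Nat.zero_le _
          have e : (j + 1) * (j ^ (n + 1) + (n + 1) * j ^ n) =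
            j ^ (n + 1 + 1) + (n + 1 + 1) * j ^ (n + 1) + (n + 1) * j ^ n := by ring
          rw [e]
          exact Nat.le_add_right _ _
      _ ≤ (j + 1) * (j + 1) ^ (n + 1) := Nat.mul_le_mul_left _ ih
      _ = (j + 1) ^ (n + 1 + 1) := by ring

theorem gw_nonneg (n : ℕ) : 0 ≤ gw n := by
  unfold gw
  split_ifs
  · positivity
  · exact le_rfl

theorem hm_nonneg (X n : ℕ) : 0 ≤ hm X n := by
  unfold hm
  split_ifs
  · exact Finset.prod_nonneg fun p _ => by positivity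
  · exact le_rfl

theorem gw_le_one {n : ℕ} (hn : 3 ≤ n) : gw n ≤ 1 := by
  unfold gw
  split_ifs
  · have h3 : (3 : ℝ) ≤ n := by exact_mod_cast hn
    have h1 : 1 ≤ Real.log n := by
      rw [Real.le_log_iff_exp_le (by linarith)]
      have := Real.exp_one_lt_d9
      linarith
    have h2 : 1 ≤ Real.log n ^ 2 := one_le_pow₀ h1
    rw [div_le_one (by linarith)]
    exact h2
  · exact zero_le_one

/-- the choice at one index -/
theorem choice (hMax : TaskMax) (q : ℕ) (hq : 1 ≤ q) (K : ℝ) (hK : 0 < K) (η s' : ℝ) (hη : 0 < η)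
    (hs' : s' = η / (100 * (K + 1))) (j₁ : ℕ) (hj₁ : 10 ≤ j₁)
    (hM : ∀ j : ℕ, j₁ ≤ j → ∀ A B : ℕ, j ^ (2 * q) ≤ A → B ≤ (j + 3) ^ (2 * q) →
      Hs (j₁ ^ (2 * q)) A B ≤ s' * (j : ℝ) ^ (2 * q - 1) / (Real.log j) ^ 3)
    (hP : ∀ j : ℕ, j₁ ≤ j → ∀ A B : ℕ, j ^ (2 * q) ≤ A → B ≤ (j + 3) ^ (2 * q) →
      (1 / 10 : ℝ) * (j : ℝ) ^ (2 * q - 1) ≤ (B : ℝ) - A →
      η * ((B : ℝ) - A) / (Real.log j) ^ 3 ≤ Gs A B)
    (j : ℕ) (hj : j₁ ≤ j) :
    ∃ p : ℕ, j ^ (2 * q) < p ∧ 8 * (p - 1) ≤ 7 * j ^ (2 * q) + (j + 1) ^ (2 * q) ∧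
      (∀ x : ℕ, p ≤ x → x ≤ (j + 2) ^ (2 * q) →
        K * Hs (j₁ ^ (2 * q)) (p - 1) x ≤ Gs (p - 1) x) ∧
      (j₁ < j → ∀ x : ℕ, (j - 1) ^ (2 * q) ≤ x → x < p →
        K * Hs (j₁ ^ (2 * q)) x p ≤ Gs x p) := by
  obtain ⟨A, hA⟩ : ∃ A, A = j ^ (2 * q) := ⟨_, rfl⟩
  obtain ⟨D, hD⟩ : ∃ D, D = (j + 1) ^ (2 * q) - j ^ (2 * q) := ⟨_, rfl⟩
  obtain ⟨B, hB⟩ : ∃ B, B = A + D / 8 := ⟨_, rfl⟩
  have hmono : j ^ (2 * q) ≤ (j + 1) ^ (2 * q) := Nat.pow_le_pow_left (by omega) _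
  have hD' : A + D = (j + 1) ^ (2 * q) := by omega
  have hB1 : B ≤ (j + 1) ^ (2 * q) := by omega
  have hB2 : (j + 1) ^ (2 * q) ≤ (j + 2) ^ (2 * q) := Nat.pow_le_pow_left (by omega) _
  have hB3 : (j + 2) ^ (2 * q) ≤ (j + 3) ^ (2 * q) := Nat.pow_le_pow_left (by omega) _
  obtain ⟨T, hT⟩ : ∃ T, T = j ^ (2 * q - 1) := ⟨_, rfl⟩
  have hT7 : 10 ≤ T := by
    rw [hT]
    calc 10 ≤ j := by omega
      _ = j ^ 1 := (pow_one j).symm
      _ ≤ j ^ (2 * q - 1) := Nat.pow_le_pow_right (by omega) (by omega)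
  have hDT : 2 * T ≤ D := by
    have h1 := bern j (2 * q - 1)
    have e1 : 2 * q - 1 + 1 = 2 * q := by omega
    rw [e1, ← hT, ← hA, ← hD'] at h1
    have h2 : 2 * T ≤ 2 * q * T := Nat.mul_le_mul_right _ (by omega)
    omega
  have hBA : (1 / 10 : ℝ) * (j : ℝ) ^ (2 * q - 1) ≤ (B : ℝ) - A := by
    have e1 : (j : ℝ) ^ (2 * q - 1) = (T : ℝ) := by rw [hT]; push_cast; rfl
    have h1 : T ≤ 8 * (B - A) := by omega
    have h2 : (T : ℝ) ≤ 8 * ((B : ℝ) - A) := by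
      have h3 : (T : ℝ) ≤ ((8 * (B - A) : ℕ) : ℝ) := by exact_mod_cast h1
      rw [Nat.cast_mul, Nat.cast_sub (by omega)] at h3
      exact_mod_cast h3
    rw [e1]
    have h4 : (0 : ℝ) ≤ T := Nat.cast_nonneg _
    linarith
  have hj10 : (10 : ℝ) ≤ j := by
    have : 10 ≤ j := by omega
    exact_mod_cast this
  have hlog : 0 < Real.log j := Real.log_pos (by linarith)
  obtain ⟨L, hL⟩ : ∃ L, L = (Real.log j) ^ 3 := ⟨_, rfl⟩
  have hL0 : 0 < L := by rw [hL]; positivity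
  obtain ⟨a, ha⟩ : ∃ a, a = if j₁ < j then (j - 1) ^ (2 * q) else j ^ (2 * q) := ⟨_, rfl⟩
  have haA : a ≤ A := by
    rw [ha, hA]
    split_ifs
    · exact Nat.pow_le_pow_left (by omega) _
    · exact le_rfl
  have hTr : (0 : ℝ) < (j : ℝ) ^ (2 * q - 1) := by positivity
  have hs0 : 0 < s' := by rw [hs']; positivity
  have h1 : Hs (j₁ ^ (2 * q)) A ((j + 2) ^ (2 * q)) ≤ s' * (j : ℝ) ^ (2 * q - 1) / L := by
    rw [hL]
    exact hM j hj A _ hA.ge hB3
  have h2 : Hs (j₁ ^ (2 * q)) a B ≤ 8 * (s' * (j : ℝ) ^ (2 * q - 1) / L) := by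
    have hpos : 0 < s' * (j : ℝ) ^ (2 * q - 1) / L := by positivity
    rw [ha]
    split_ifs with hlt
    · have h3 := hM (j - 1) (by omega) ((j - 1) ^ (2 * q)) B le_rfl (by
        have e : j - 1 + 3 = j + 2 := by omega
        rw [e]; exact hB1.trans hB2)
      have e2 : ((j - 1 : ℕ) : ℝ) = (j : ℝ) - 1 := by
        rw [Nat.cast_sub (by omega)]; simp
      rw [e2] at h3
      refine h3.trans ?_
      have h4 : 0 < Real.log ((j : ℝ) - 1) := Real.log_pos (by linarith)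
      have h5 : Real.log j ≤ 2 * Real.log ((j : ℝ) - 1) := by
        have e3 : 2 * Real.log ((j : ℝ) - 1) = Real.log (((j : ℝ) - 1) ^ 2) := by
          rw [Real.log_pow]; norm_num
        rw [e3]
        apply Real.log_le_log (by linarith)
        nlinarith
      have h6 : L ≤ 8 * (Real.log ((j : ℝ) - 1)) ^ 3 := by
        rw [hL]
        calc Real.log j ^ 3 ≤ (2 * Real.log ((j : ℝ) - 1)) ^ 3 := pow_le_pow_left₀ hlog.le h5 3
          _ = 8 * (Real.log ((j : ℝ) - 1)) ^ 3 := by ring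
      have h7 : ((j : ℝ) - 1) ^ (2 * q - 1) ≤ (j : ℝ) ^ (2 * q - 1) :=
        pow_le_pow_left₀ (by linarith) (by linarith) _
      have h8 : (0 : ℝ) < (Real.log ((j : ℝ) - 1)) ^ 3 := by positivity
      rw [div_le_iff₀ h8]
      calc s' * ((j : ℝ) - 1) ^ (2 * q - 1) ≤ s' * (j : ℝ) ^ (2 * q - 1) :=
            mul_le_mul_of_nonneg_left h7 hs0.le
        _ = (s' * (j : ℝ) ^ (2 * q - 1) / L) * L := by field_simp
        _ ≤ (s' * (j : ℝ) ^ (2 * q - 1) / L) * (8 * (Real.log ((j : ℝ) - 1)) ^ 3) :=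
            mul_le_mul_of_nonneg_left h6 hpos.le
        _ = 8 * (s' * (j : ℝ) ^ (2 * q - 1) / L) * Real.log ((j : ℝ) - 1) ^ 3 := by ring
    · have h3 := hM j hj (j ^ (2 * q)) B le_rfl (hB1.trans (hB2.trans hB3))
      rw [← hL] at h3
      linarith
  have h3 : (η / 10) * ((j : ℝ) ^ (2 * q - 1) / L) ≤ Gs A B := by
    have h4 := hP j hj A B hA.ge (hB1.trans (hB2.trans hB3)) hBA
    rw [← hL] at h4
    refine le_trans ?_ h4
    have e : (η / 10) * ((j : ℝ) ^ (2 * q - 1) / L) = η * (1 / 10 * (j : ℝ) ^ (2 * q - 1)) / L := by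
      ring
    rw [e]
    exact div_le_div_of_nonneg_right (mul_le_mul_of_nonneg_left hBA hη.le) hL0.le
  obtain ⟨V, hV⟩ : ∃ V, V = (j : ℝ) ^ (2 * q - 1) / L := ⟨_, rfl⟩
  have hV0 : 0 < V := by rw [hV]; positivity
  have h4 : K * (Hs (j₁ ^ (2 * q)) A ((j + 2) ^ (2 * q)) + Hs (j₁ ^ (2 * q)) a B) < Gs A B := by
    rw [← hV] at h3
    rw [mul_div_assoc, ← hV] at h1 h2
    have h5 : K * (Hs (j₁ ^ (2 * q)) A ((j + 2) ^ (2 * q)) + Hs (j₁ ^ (2 * q)) a B) ≤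
        K * (9 * (s' * V)) := mul_le_mul_of_nonneg_left (by linarith) hK.le
    have h6 : K * (9 * (s' * V)) < (η / 10) * V := by
      have h7 : K * (9 * (s' * V)) = (9 * K / (100 * (K + 1)) * η) * V := by
        rw [hs']; field_simp
      rw [h7]
      apply mul_lt_mul_of_pos_right _ hV0
      have h8 : 9 * K / (100 * (K + 1)) < 1 / 10 := by
        rw [div_lt_div_iff₀ (by positivity) (by norm_num)]
        nlinarith
      calc 9 * K / (100 * (K + 1)) * η < 1 / 10 * η := mul_lt_mul_of_pos_right h8 hη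
        _ = η / 10 := by ring
    linarith
  obtain ⟨p, hp, _, hp1, hp2⟩ := hMax gw (hm (j₁ ^ (2 * q))) K a A B ((j + 2) ^ (2 * q))
    gw_nonneg (hm_nonneg _) hK.le haA (by omega) (hB1.trans hB2) h4
  rw [Finset.mem_Ioc] at hp
  refine ⟨p, by rw [← hA]; exact hp.1, by omega, fun x hx hxc => hp1 x hx hxc, ?_⟩
  intro hlt x hx hxp
  refine hp2 x ?_ hxp
  rw [ha, if_pos hlt]
  exact hx

theorem task : TaskGood := by
  rintro ⟨q₁, hM⟩ ⟨q₂, hP⟩ hMax
  refine ⟨max (max q₁ q₂) 1, fun q hq K hK => ?_⟩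
  have hq1 : q₁ ≤ q := (le_max_left _ _).trans ((le_max_left _ _).trans hq)
  have hq2 : q₂ ≤ q := (le_max_right _ _).trans ((le_max_left _ _).trans hq)
  have hq3 : 1 ≤ q := (le_max_right _ _).trans hq
  obtain ⟨η, hη, hP⟩ := hP q hq2
  obtain ⟨J₂, hP⟩ := hP (1 / 10) (by norm_num)
  obtain ⟨J₁, hM⟩ := hM q hq1 (η / (100 * (K + 1))) (by positivity)
  refine ⟨max (max J₁ J₂) 10, fun j₁ hj₁ => ?_⟩
  have hj1 : J₁ ≤ j₁ := (le_max_left _ _).trans ((le_max_left _ _).trans hj₁)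
  have hj2 : J₂ ≤ j₁ := (le_max_right _ _).trans ((le_max_left _ _).trans hj₁)
  have hj3 : 10 ≤ j₁ := (le_max_right _ _).trans hj₁
  have hch := choice hMax q hq3 K hK η (η / (100 * (K + 1))) hη rfl j₁ hj3
    (fun j hj A B hA hB => hM j₁ hj1 j hj A B hA hB)
    (fun j hj A B hA hB hAB => (hP j (hj2.trans hj) A B hA hB hAB).1)
  choose! p hp1 hp2 hp3 hp4 using hch
  refine ⟨fun j => p j - 1, ?_, ?_⟩
  · intro j hj
    have h1 := hp1 j hj
    have h2 := hp2 j hj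
    exact ⟨by show j ^ (2 * q) ≤ p j - 1; omega, h2⟩
  · intro j hj x hx1 hx2
    have h1 := hp1 j hj
    have h1' := hp1 (j + 1) (by omega)
    have h2' := hp2 (j + 1) (by omega)
    have hx1' : p j - 1 ≤ x := hx1
    have hx2' : x ≤ p (j + 1) - 1 := hx2
    have hup : p (j + 1) - 1 ≤ (j + 2) ^ (2 * q) := by
      have h3 : (j + 1) ^ (2 * q) ≤ (j + 1 + 1) ^ (2 * q) := Nat.pow_le_pow_left (by omega) _
      have e : j + 1 + 1 = j + 2 := by omega
      rw [e] at h3 h2'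
      omega
    constructor
    · show K * Hs (j₁ ^ (2 * q)) (p j - 1) x ≤ Gs (p j - 1) x
      rcases Nat.lt_or_ge x (p j) with hlt | hge
      · have hx : x = p j - 1 := by omega
        rw [hx]
        simp [Hs, Gs]
      · exact hp3 j hj x hge (hx2'.trans hup)
    · show K * Hs (j₁ ^ (2 * q)) x (p (j + 1) - 1) ≤ Gs x (p (j + 1) - 1) + 1
      have h3 := hp4 (j + 1) (by omega) (by omega) x (by
        have e : j + 1 - 1 = j := by omega
        rw [e]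
        omega) (by omega)
      have h4 : Hs (j₁ ^ (2 * q)) x (p (j + 1) - 1) ≤ Hs (j₁ ^ (2 * q)) x (p (j + 1)) := by
        unfold Hs
        apply Finset.sum_le_sum_of_subset_of_nonneg
        · apply Finset.Ioc_subset_Ioc_right
          omega
        · intro i _ _
          exact hm_nonneg _ _
      have h5 : Gs x (p (j + 1)) = Gs x (p (j + 1) - 1) + gw (p (j + 1)) := by
        unfold Gs
        obtain ⟨r, hr⟩ : ∃ r, p (j + 1) = r + 1 := ⟨p (j + 1) - 1, by omega⟩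
        rw [hr, Nat.add_sub_cancel, Finset.sum_Ioc_succ_top (by omega)]
      have h6 : gw (p (j + 1)) ≤ 1 := by
        apply gw_le_one
        have h7 : j + 1 ≤ (j + 1) ^ (2 * q) := by
          calc j + 1 = (j + 1) ^ 1 := (pow_one _).symm
            _ ≤ (j + 1) ^ (2 * q) := Nat.pow_le_pow_right (by omega) (by omega)
        omega
      have h8 : K * Hs (j₁ ^ (2 * q)) x (p (j + 1) - 1) ≤ K * Hs (j₁ ^ (2 * q)) x (p (j + 1)) :=
        mul_le_mul_of_nonneg_left h4 hK.le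
      linarith

end Pool.Agent.W880.PX.Good
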